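import Mathlib
import Pool.Agent.Helper80.FB.Base

/-!
# Uniform boundedness for endomorphisms fibred over a fixed endomorphism

Unconditional.  Let `K` be a number field, `d ≥ 5` and `g` an endomorphism of `ℙ^m` of degree `d`
over `K` (`m ≥ 0`) all of whose `K`-rational periodic points are fixed points.  For every `M ≥ 0`
there is a constant `C` such that for ALL forms `H_1, …, H_M` of degree `d` in `x_0, …, x_m` over
`K`, every endomorphism of `ℙ^(m + M)` which is `PGL_(m+M+1)(K)`-conjugate to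
`[g(x) : y_1^d + H_1(x) : ⋯ : y_M^d + H_M(x)]` has at most `C` `K`-rational preperiodic points.

The coefficients of the `H_j` are arbitrary, so the primes of bad reduction of these maps are
arbitrary.  `m = 0` is the family `[x_0^d : y_j^d + c_j x_0^d]`, `c ∈ K^M`, and `m = 0`, `M = 1`
the family `z^d + c`.

The proof uses Northcott's theorem for `g`, and for the fibres the uniform bound for the maps
`τ z^d + c` with fixed `τ`, which rests on Faltings' theorem for hyperelliptic curves (proved in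
`Pool.Agent.Helper80.UC.HE` from the library's theorem for the curve `y² = x⁶ + 1`).
-/

set_option autoImplicit false

open Matrix MvPolynomial

namespace Pool.Agent.Results.MP_13bc7b_nt.FixedBase

/-- The map of homogeneous coordinate vectors given by a tuple of polynomials. -/
noncomputable def polyMap {K ι : Type} [Field K] (f : ι → MvPolynomial ι K) (x : ι → K) : ι → K :=
  fun i => eval x (f i)

/-- `g` defines an endomorphism of degree `d` of `ℙ^m`: its components are forms of degree `d`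
without a common zero other than `0` over the algebraic closure. -/
def IsEndomorphism {K : Type} [Field K] {m : ℕ} (d : ℕ)
    (g : Fin (m + 1) → MvPolynomial (Fin (m + 1)) K) : Prop :=
  (∀ i, (g i).IsHomogeneous d) ∧
    ∀ x : Fin (m + 1) → AlgebraicClosure K, (∀ i, aeval x (g i) = 0) → x = 0

/-- Every `K`-rational periodic point of `g` is a fixed point. -/
def PeriodicFixed {K : Type} [Field K] {m : ℕ}
    (g : Fin (m + 1) → MvPolynomial (Fin (m + 1)) K) : Prop :=
  ∀ x : Fin (m + 1) → K, x ≠ 0 → (∃ n : ℕ, 0 < n ∧ ∃ a : K, a ≠ 0 ∧ (polyMap g)^[n] x = a • x) →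
    ∃ b : K, polyMap g x = b • x

/-- The map `[g(x) : y_1^d + H_1(x) : ⋯ : y_M^d + H_M(x)]` on homogeneous coordinates: the
coordinates `x_0, …, x_m` are indexed by `Fin (m + 1)`, the coordinates `y_1, …, y_M` by `Fin M`. -/
noncomputable def fibredMap {K : Type} [Field K] {m M : ℕ} (d : ℕ)
    (g : Fin (m + 1) → MvPolynomial (Fin (m + 1)) K)
    (H : Fin M → MvPolynomial (Fin (m + 1)) K) (z : Fin (m + 1) ⊕ Fin M → K) :
    Fin (m + 1) ⊕ Fin M → K :=
  Sum.elim (fun i => eval (fun k => z (Sum.inl k)) (g i))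
    (fun j => z (Sum.inr j) ^ d + eval (fun k => z (Sum.inl k)) (H j))

/-- The tuple `f` of polynomials induces on homogeneous coordinates the map
`z ↦ u • P⁻¹ (fibredMap d g H (P z))` for some `P ∈ GL_(m+M+1)(K)`, `u ∈ K*`
(written without the inverse as `P (f z) = u • fibredMap d g H (P z)`). -/
def IsConj {K : Type} [Field K] {m M : ℕ} (d : ℕ)
    (g : Fin (m + 1) → MvPolynomial (Fin (m + 1)) K)
    (H : Fin M → MvPolynomial (Fin (m + 1)) K)
    (f : Fin (m + 1) ⊕ Fin M → MvPolynomial (Fin (m + 1) ⊕ Fin M) K) : Prop :=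
  ∃ (P : Matrix.GeneralLinearGroup (Fin (m + 1) ⊕ Fin M) K) (u : K), u ≠ 0 ∧
    ∀ z : Fin (m + 1) ⊕ Fin M → K,
      (P : Matrix (Fin (m + 1) ⊕ Fin M) (Fin (m + 1) ⊕ Fin M) K) *ᵥ (polyMap f z) =
        u • fibredMap d g H
          ((P : Matrix (Fin (m + 1) ⊕ Fin M) (Fin (m + 1) ⊕ Fin M) K) *ᵥ z)

theorem result (K : Type) [Field K] [NumberField K] (m d : ℕ) (hd : 5 ≤ d)
    (g : Fin (m + 1) → MvPolynomial (Fin (m + 1)) K) (hg : IsEndomorphism d g)
    (hper : PeriodicFixed g) (M : ℕ) :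
    ∃ C : ℕ, ∀ H : Fin M → MvPolynomial (Fin (m + 1)) K, (∀ j, (H j).IsHomogeneous d) →
      ∀ f : Fin (m + 1) ⊕ Fin M → MvPolynomial (Fin (m + 1) ⊕ Fin M) K, IsConj d g H f →
      ∀ S : Finset (Fin (m + 1) ⊕ Fin M → K),
        (∀ x ∈ S, x ≠ 0) →
        (∀ x ∈ S, ∀ y ∈ S, ∀ a : K, x = a • y → x = y) →
        (∀ x ∈ S, ∃ k n : ℕ, k < n ∧ ∃ a : K, a ≠ 0 ∧
          (polyMap f)^[n] x = a • (polyMap f)^[k] x) →
        S.card ≤ C := by
  obtain ⟨C, hC⟩ := Helper80.FB.fixed_base K hd g hg.1 hg.2 hper M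
  refine ⟨C, ?_⟩
  rintro H hH f ⟨P, u, hu, hf⟩
  set Q : Matrix (Fin (m + 1) ⊕ Fin M) (Fin (m + 1) ⊕ Fin M) K :=
    (P : Matrix (Fin (m + 1) ⊕ Fin M) (Fin (m + 1) ⊕ Fin M) K) with hQ
  have hinj : Function.Injective (fun x => Q *ᵥ x) :=
    Matrix.mulVec_injective_of_isUnit (A := Q) P.isUnit
  have hsm : ∀ (a : K) (z : (Fin (m + 1) → K) × (Fin M → K)),
      Helper80.FB.fib (fun (x : Fin (m + 1) → K) i => eval x (g i)) (fun j x => eval x (H j)) d
        (a • z) = a ^ d • Helper80.FB.fib (fun (x : Fin (m + 1) → K) i => eval x (g i))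
          (fun j x => eval x (H j)) d z :=
    Helper80.FB.fib_smul (fun a x => by
      funext i
      simp only [Pi.smul_apply, smul_eq_mul]
      exact Helper80.FB.eval_smul_hom (hg.1 i) a x)
      (fun j a x => Helper80.FB.eval_smul_hom (hH j) a x)
  exact (hC H hH).pull hsm ((Helper80.FB.splitMap m M).comp Q.mulVecLin)
    ((Helper80.FB.splitMap_inj m M).comp hinj) hu (fun z => by
      rw [LinearMap.comp_apply, Matrix.mulVecLin_apply, hf z, map_smul]
      rfl)

end Pool.Agent.Results.MP_13bc7b_nt.FixedBase
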