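import Mathlib
import Pool.Agent.Helper80.FB.Gen2

/-!
# Uniform boundedness for generic triangular endomorphisms of `ℙ^N`

Unconditional.  Let `K` be a number field and `d ≥ 5`.  A triangular endomorphism of `ℙ^n` is
`T_H = [x_0^d : x_1^d + H_1(x_0) : x_2^d + H_2(x_0, x_1) : ⋯ : x_n^d + H_n(x_0, …, x_(n-1))]` with
arbitrary forms `H_i` of degree `d`.  There is a finite set `E ⊂ K` such that for all `n, M ≥ 0`
there is a constant `C` with the following property.  If no value of `H_i` at a nonzero vector of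
`K^i` fixed by the truncated tower (on `x_0, …, x_(i-1)`) lies in `E`, for `i = 1, …, n`, then

* the `n`-th iterate of `T_H` maps every `K`-rational preperiodic point of `ℙ^n` to a fixed point
  (in particular all `K`-rational periodic points are fixed points), and
* for ALL forms `L_1, …, L_M` of degree `d` in `x_0, …, x_n`, every endomorphism of `ℙ^(n + M)`
  which is `PGL_(n+M+1)(K)`-conjugate to `[T_H(x) : y_1^d + L_1(x) : ⋯ : y_M^d + L_M(x)]` has at
  most `C` preperiodic points in `ℙ^(n + M)(K)`.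

For each `n` the condition on `H` holds outside a proper Zariski closed subset of the space of all
tuples of forms: there is a polynomial `Q` in the coefficients, not identically zero on this space,
such that every `H` with `Q(H) ≠ 0` satisfies it.  So the uniform bound holds for a Zariski dense
open set of ALL triangular endomorphisms, with arbitrary primes of bad reduction.
-/

set_option autoImplicit false

open Matrix MvPolynomial

namespace Pool.Agent.Results.MP_13bc7b_nt.GenericTriangular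

/-- Forms `H_1, …, H_n`, where `H_(i+1) = H i` is a polynomial in the variables `x_0, …, x_i`. -/
abbrev Forms (K : Type) [Field K] (n : ℕ) : Type :=
  (i : Fin n) → MvPolynomial (Fin (i.val + 1)) K

/-- The triangular map `T_H = (x_0^d, x_1^d + H_1(x_0), …, x_n^d + H_n(x_0, …, x_(n-1)))`. -/
noncomputable def triangular {K : Type} [Field K] {n : ℕ} (d : ℕ) (H : Forms K n)
    (x : Fin (n + 1) → K) : Fin (n + 1) → K :=
  Fin.cons (α := fun _ => K) (x 0 ^ d) fun i : Fin n =>
    x i.succ ^ d + eval (fun k : Fin (i.val + 1) => x ⟨k.val, by omega⟩) (H i)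

/-- The first `i` of the forms `H_1, …, H_n`. -/
def truncate {K : Type} [Field K] {n : ℕ} (H : Forms K n) (i : Fin n) : Forms K i.val :=
  fun k => H ⟨k.val, by omega⟩

/-- For `i < n` the form `H_(i+1)` takes no value in `E` at the nonzero vectors
`x = (x_0, …, x_i)` fixed by the truncated tower `T_(H_1, …, H_i)`. -/
def Avoids {K : Type} [Field K] {n : ℕ} (E : Set K) (d : ℕ) (H : Forms K n) : Prop :=
  ∀ (i : Fin n) (x : Fin (i.val + 1) → K), x ≠ 0 → triangular d (truncate H i) x = x →
    eval x (H i) ∉ E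

/-- `[T_H(x) : y_1^d + L_1(x) : ⋯ : y_M^d + L_M(x)]` on homogeneous coordinates; the coordinates
`x` are indexed by `Fin (n + 1)`, the coordinates `y` by `Fin M`. -/
noncomputable def towerMap {K : Type} [Field K] {n M : ℕ} (d : ℕ) (H : Forms K n)
    (L : Fin M → MvPolynomial (Fin (n + 1)) K) (z : Fin (n + 1) ⊕ Fin M → K) :
    Fin (n + 1) ⊕ Fin M → K :=
  Sum.elim (triangular d H fun k => z (Sum.inl k))
    (fun j => z (Sum.inr j) ^ d + eval (fun k => z (Sum.inl k)) (L j))

/-- The map of homogeneous coordinate vectors given by a tuple of polynomials. -/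
noncomputable def polyMap {K ι : Type} [Field K] (f : ι → MvPolynomial ι K) (x : ι → K) : ι → K :=
  fun i => eval x (f i)

/-- The tuple `f` of polynomials induces on homogeneous coordinates the map
`z ↦ u • P⁻¹ (towerMap d H L (P z))` for some `P ∈ GL_(n+M+1)(K)`, `u ∈ K*`. -/
def IsConj {K : Type} [Field K] {n M : ℕ} (d : ℕ) (H : Forms K n)
    (L : Fin M → MvPolynomial (Fin (n + 1)) K)
    (f : Fin (n + 1) ⊕ Fin M → MvPolynomial (Fin (n + 1) ⊕ Fin M) K) : Prop :=
  ∃ (P : Matrix.GeneralLinearGroup (Fin (n + 1) ⊕ Fin M) K) (u : K), u ≠ 0 ∧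
    ∀ z : Fin (n + 1) ⊕ Fin M → K,
      (P : Matrix (Fin (n + 1) ⊕ Fin M) (Fin (n + 1) ⊕ Fin M) K) *ᵥ (polyMap f z) =
        u • towerMap d H L
          ((P : Matrix (Fin (n + 1) ⊕ Fin M) (Fin (n + 1) ⊕ Fin M) K) *ᵥ z)

/-- Two iterates of `F` at `x` are proportional. -/
def Preperiodic {K ι : Type} [Field K] (F : (ι → K) → (ι → K)) (x : ι → K) : Prop :=
  ∃ k l : ℕ, k < l ∧ ∃ a : K, a ≠ 0 ∧ F^[l] x = a • F^[k] x

theorem result (K : Type) [Field K] [NumberField K] (d : ℕ) (hd : 5 ≤ d) :
    ∃ E : Set K, E.Finite ∧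
      (∀ n : ℕ, ∃ Q : MvPolynomial (Σ i : Fin n, (Fin (i.val + 1) →₀ ℕ)) K,
        (∃ H : Forms K n, (∀ i, (H i).IsHomogeneous d) ∧
          eval (fun p => (H p.1).coeff p.2) Q ≠ 0) ∧
        ∀ H : Forms K n, (∀ i, (H i).IsHomogeneous d) →
          eval (fun p => (H p.1).coeff p.2) Q ≠ 0 → Avoids E d H) ∧
      (∀ (n : ℕ) (H : Forms K n), (∀ i, (H i).IsHomogeneous d) → Avoids E d H →
        ∀ x : Fin (n + 1) → K, x ≠ 0 → Preperiodic (triangular d H) x →
          ∃ b : K, (triangular d H)^[n + 1] x = b • (triangular d H)^[n] x) ∧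
      ∀ n M : ℕ, ∃ C : ℕ, ∀ (H : Forms K n) (L : Fin M → MvPolynomial (Fin (n + 1)) K),
        (∀ i, (H i).IsHomogeneous d) → (∀ j, (L j).IsHomogeneous d) → Avoids E d H →
        ∀ f : Fin (n + 1) ⊕ Fin M → MvPolynomial (Fin (n + 1) ⊕ Fin M) K, IsConj d H L f →
        ∀ S : Finset (Fin (n + 1) ⊕ Fin M → K),
          (∀ x ∈ S, x ≠ 0) →
          (∀ x ∈ S, ∀ y ∈ S, ∀ a : K, x = a • y → x = y) →
          (∀ x ∈ S, Preperiodic (polyMap f) x) →
          S.card ≤ C := by
  obtain ⟨E, hE, B, hB⟩ := Helper80.FB.avoid_tower K hd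
  refine ⟨E, hE, fun n => ?_, ?_, ?_⟩
  · exact Helper80.FB.avoid_generic K n (show 2 ≤ d by omega) E hE
  · intro n H hH hav x hx hp
    have hG := (hB n H hH hav).1
    obtain ⟨s, hs, l, hl, h⟩ := hG.fix x hx hp
    have hsm : ∀ (a : K) (z : Fin (n + 1) → K),
        triangular d H (a • z) = a ^ d • triangular d H z := by
      have hT : triangular d H = Helper80.FB.tw d (Helper80.FB.hf H) n :=
        funext fun x => Helper80.FB.towerFun_eq d H x
      rw [hT]
      exact Helper80.FB.tw_smul (Helper80.FB.hf_smul hH) n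
    have h' : triangular d H (s • (triangular d H)^[n] x) = l • (s • (triangular d H)^[n] x) := h
    rw [hsm] at h'
    refine ⟨(s ^ d)⁻¹ * (l * s), ?_⟩
    rw [Function.iterate_succ_apply', mul_smul, mul_smul, ← h', smul_smul,
      inv_mul_cancel₀ (pow_ne_zero _ hs), one_smul]
  · intro n M
    refine ⟨(d ^ M) ^ n * B ^ M * Helper80.FB.Cb d B n + B ^ M, ?_⟩
    rintro H L hH hL hav f ⟨P, u, hu, hf⟩
    have hC := (hB n H hH hav).2 M L hL
    set Q : Matrix (Fin (n + 1) ⊕ Fin M) (Fin (n + 1) ⊕ Fin M) K :=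
      (P : Matrix (Fin (n + 1) ⊕ Fin M) (Fin (n + 1) ⊕ Fin M) K) with hQ
    have hinj : Function.Injective (fun x => Q *ᵥ x) :=
      Matrix.mulVec_injective_of_isUnit (A := Q) P.isUnit
    have hT : Helper80.FB.towerFun d H = Helper80.FB.tw d (Helper80.FB.hf H) n :=
      funext fun x => Helper80.FB.towerFun_eq d H x
    have hsm : ∀ (a : K) (z : (Fin (n + 1) → K) × (Fin M → K)),
        Helper80.FB.fib (Helper80.FB.towerFun d H) (fun j x => eval x (L j)) d (a • z) =
          a ^ d • Helper80.FB.fib (Helper80.FB.towerFun d H) (fun j x => eval x (L j)) d z := by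
      rw [hT]
      exact Helper80.FB.fib_smul (Helper80.FB.tw_smul (Helper80.FB.hf_smul hH) n)
        (fun j a x => Helper80.FB.eval_smul_hom (hL j) a x)
    exact hC.pull hsm ((Helper80.FB.splitMap n M).comp Q.mulVecLin)
      ((Helper80.FB.splitMap_inj n M).comp hinj) hu (fun z => by
        rw [LinearMap.comp_apply, Matrix.mulVecLin_apply, hf z, map_smul]
        rfl)

end Pool.Agent.Results.MP_13bc7b_nt.GenericTriangular
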