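import Mathlib
import Pool.Agent.Helper80.SG.Sym2

/-!
# Uniform boundedness for symmetric squares of unicritical polynomials on `ℙ²`

Unconditional.  `ℙ²` is the quotient of `ℙ¹ × ℙ¹` by the exchange of the factors, the quotient
map being `([p₀ : p₁], [q₀ : q₁]) ↦ [p₀ q₀ : p₀ q₁ + p₁ q₀ : p₁ q₁]`, and every self-map `g` of
`ℙ¹` of degree `d` induces an endomorphism of `ℙ²` of degree `d`, its symmetric square.  For a
number field `K`, `d ≥ 6` and `τ ∈ K*` there is a constant `C` such that every endomorphism of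
`ℙ²` which is `PGL₃(K)`-conjugate to the symmetric square of `τ z^d + c` for some `c ∈ K` has at
most `C` preperiodic points in `ℙ²(K)`; and for all `c` outside a finite set every such point is
mapped to a fixed point, so that every periodic point in `ℙ²(K)` is fixed.

These maps are not skew products over `ℙ¹` in the given coordinates (the map `z ↦ τ z^d + c` has
to be evaluated at points of degree two over `K`), so the proof uses the bound for the
preperiodic points of degree at most two over `K`.  Faltings' theorem is used for hyperelliptic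
curves only.
-/

set_option autoImplicit false

open Matrix

namespace Pool.Agent.Results.MP_13bc7b_nt.SymmetricSquare

/-- The polynomial `τ z^d + c` on homogeneous coordinates `[p₀ : p₁]`, `z = p₁ / p₀`. -/
def uni {K : Type} [Field K] (d : ℕ) (τ c : K) (p : Fin 2 → K) : Fin 2 → K :=
  ![p 0 ^ d, τ * p 1 ^ d + c * p 0 ^ d]

/-- The quotient map `ℙ¹ × ℙ¹ → ℙ²` on homogeneous coordinates. -/
def pair {K : Type} [Field K] (p q : Fin 2 → K) : Fin 3 → K :=
  ![p 0 * q 0, p 0 * q 1 + p 1 * q 0, p 1 * q 1]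

/-- The form `D` of degree `d` with `D (pair p q) = p₀^d q₁^d + p₁^d q₀^d`
(`D (1, s, p) = a^d + b^d` for the roots `a, b` of `T² - s T + p`). -/
noncomputable def powerSum {K : Type} [Field K] (d : ℕ) (x : Fin 3 → K) : K :=
  (Polynomial.dickson 1 (x 0 * x 2) d).eval (x 1)

/-- The symmetric square of `τ z^d + c` on homogeneous coordinates. -/
noncomputable def symSquare {K : Type} [Field K] (d : ℕ) (τ c : K) (x : Fin 3 → K) : Fin 3 → K :=
  ![x 0 ^ d, τ * powerSum d x + 2 * c * x 0 ^ d,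
    τ ^ 2 * x 2 ^ d + τ * c * powerSum d x + c ^ 2 * x 0 ^ d]

/-- Evaluation of a triple of polynomials. -/
noncomputable def ev {K : Type} [Field K] (f : Fin 3 → MvPolynomial (Fin 3) K)
    (x : Fin 3 → K) : Fin 3 → K := fun i => MvPolynomial.eval x (f i)

/-- The triple `f` of polynomials induces on homogeneous coordinates the map
`x ↦ u • P⁻¹ (symSquare d τ c (P x))` for some `P ∈ GL₃(K)`, `u ∈ K*`
(written without the inverse as `P (f x) = u • symSquare d τ c (P x)`). -/
def IsSymSquare {K : Type} [Field K] (d : ℕ) (τ c : K)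
    (f : Fin 3 → MvPolynomial (Fin 3) K) : Prop :=
  ∃ (P : Matrix.GeneralLinearGroup (Fin 3) K) (u : K), u ≠ 0 ∧
    ∀ x : Fin 3 → K, (P : Matrix (Fin 3) (Fin 3) K) *ᵥ (ev f x) =
      u • symSquare d τ c ((P : Matrix (Fin 3) (Fin 3) K) *ᵥ x)

/-- The point of `ℙ²(K)` with homogeneous coordinates `x` is preperiodic. -/
def IsPreperiodic {K : Type} [Field K] (f : Fin 3 → MvPolynomial (Fin 3) K)
    (x : Fin 3 → K) : Prop :=
  ∃ m n : ℕ, m < n ∧ ∃ a : K, a ≠ 0 ∧ (ev f)^[n] x = a • (ev f)^[m] x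

theorem result (K : Type) [Field K] [NumberField K] (d : ℕ) (hd : 6 ≤ d) (τ : K) (hτ : τ ≠ 0) :
    (∀ (c : K) (p q : Fin 2 → K),
      symSquare d τ c (pair p q) = pair (uni d τ c p) (uni d τ c q)) ∧
    ∃ (C : ℕ) (E : Set K), E.Finite ∧
      ∀ (c : K) (f : Fin 3 → MvPolynomial (Fin 3) K), IsSymSquare d τ c f →
        (∀ S : Finset (Fin 3 → K), (∀ x ∈ S, x ≠ 0) →
          (∀ x ∈ S, ∀ y ∈ S, ∀ a : K, x = a • y → x = y) →
          (∀ x ∈ S, IsPreperiodic f x) → S.card ≤ C) ∧
        (c ∉ E → ∀ x : Fin 3 → K, x ≠ 0 → IsPreperiodic f x →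
          ∃ a : K, a ≠ 0 ∧ ev f (ev f x) = a • ev f x) := by
  refine ⟨fun c p q => Helper80.SG.symSq_pair d τ c p q, ?_⟩
  obtain ⟨C, E, hE, H⟩ := Helper80.SG.sym_all K hd hτ
  refine ⟨C, E, hE, ?_⟩
  rintro c f ⟨P, u, hu, hf⟩
  exact H c P (ev f) u hu hf

end Pool.Agent.Results.MP_13bc7b_nt.SymmetricSquare
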