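import Mathlib
import Pool.Agent.Helper80.SG.Chain

/-!
# Uniform boundedness for towers of coupled maps on `ℙ^N` of degree `d ≥ 5`

Unconditional.  Let `K` be a number field, `S` a finite set of primes of `K`, `N ≥ 0` and `d ≥ 5`.
There is a constant `C` such that every endomorphism of `ℙ^N` over `K` which is
`PGL_(N+1)(K)`-conjugate to a map `[x₀^d : x_i^d + H_i(x₀, …, x_(i-1))]` (`i = 1, …, N`), where
* `H_i ∈ x₀ K[x₀, …, x_(i-1)]` is homogeneous of degree `d` and all its coefficients except that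
  of `x₀^d`, called `c_i`, are `S`-integral, and
* `max(1, |c₁|_v) ≤ ⋯ ≤ max(1, |c_N|_v)` for all primes `v ∉ S`,
has at most `C` `K`-rational preperiodic points.
-/

set_option autoImplicit false

open Matrix IsDedekindDomain NumberField

namespace Pool.Agent.Results.MP_13bc7b_nt.TriangularTower

/-- The map `[x₀^d : x_i^d + H_i(x)]` on homogeneous coordinates (here `x_(i+1)` is `x i.succ` and
`H i` is the form added to `x_(i+1)^d`). -/
noncomputable def towerMap {K : Type} [Field K] {N : ℕ} (d : ℕ)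
    (H : Fin N → MvPolynomial (Fin (N + 1)) K) (x : Fin (N + 1) → K) : Fin (N + 1) → K :=
  Fin.cons (x 0 ^ d) fun i => x i.succ ^ d + MvPolynomial.eval x (H i)

/-- The conditions on the forms `H_i`: homogeneous of degree `d`, divisible by `x₀`, `H i` involves
only the variables before `x_(i+1)`, the coefficients except that of `x₀^d` are `S`-integral, and
the denominators of the coefficients of `x₀^d` outside `S` form a chain. -/
structure IsTower {K : Type} [Field K] [NumberField K] {N : ℕ}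
    (S : Set (HeightOneSpectrum (𝓞 K))) (d : ℕ) (H : Fin N → MvPolynomial (Fin (N + 1)) K) :
    Prop where
  homogeneous : ∀ i, ∀ m ∈ (H i).support, ∑ k, m k = d
  divisible : ∀ i, ∀ m ∈ (H i).support, m 0 ≠ 0
  triangular : ∀ i, ∀ m ∈ (H i).support, ∀ j : Fin N, i ≤ j → m j.succ = 0
  integral : ∀ v ∉ S, ∀ i, ∀ m, m ≠ Finsupp.single 0 d → v.valuation K ((H i).coeff m) ≤ 1
  chain : ∀ v ∉ S, ∀ i j : Fin N, i ≤ j →
    max 1 (v.valuation K ((H i).coeff (Finsupp.single 0 d))) ≤
      max 1 (v.valuation K ((H j).coeff (Finsupp.single 0 d)))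

/-- The tuple `f` of polynomials induces on homogeneous coordinates the map
`x ↦ u • P⁻¹ (towerMap d H (P x))` for some `P ∈ GL_(N+1)(K)` and `u ∈ K*`
(written without the inverse as `P (f x) = u • towerMap d H (P x)`). -/
def IsConj {K : Type} [Field K] {N : ℕ} (d : ℕ) (H : Fin N → MvPolynomial (Fin (N + 1)) K)
    (f : Fin (N + 1) → MvPolynomial (Fin (N + 1)) K) : Prop :=
  ∃ (P : Matrix.GeneralLinearGroup (Fin (N + 1)) K) (u : K), u ≠ 0 ∧
    ∀ x : Fin (N + 1) → K,
      (P : Matrix (Fin (N + 1)) (Fin (N + 1)) K) *ᵥ (fun i => MvPolynomial.eval x (f i)) =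
        u • towerMap d H ((P : Matrix (Fin (N + 1)) (Fin (N + 1)) K) *ᵥ x)

theorem result (K : Type) [Field K] [NumberField K] (S : Set (HeightOneSpectrum (𝓞 K)))
    (hS : S.Finite) (N d : ℕ) (hd : 5 ≤ d) :
    ∃ C : ℕ, ∀ H : Fin N → MvPolynomial (Fin (N + 1)) K, IsTower S d H →
      ∀ f : Fin (N + 1) → MvPolynomial (Fin (N + 1)) K, IsConj d H f →
      ∀ T : Finset (Fin (N + 1) → K),
        (∀ x ∈ T, x ≠ 0) →
        (∀ x ∈ T, ∀ y ∈ T, ∀ a : K, x = a • y → x = y) →
        (∀ x ∈ T, ∃ m n : ℕ, m < n ∧ ∃ a : K, a ≠ 0 ∧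
          (fun v : Fin (N + 1) → K => fun i => MvPolynomial.eval v (f i))^[n] x =
            a • (fun v : Fin (N + 1) → K => fun i => MvPolynomial.eval v (f i))^[m] x) →
        T.card ≤ C := by
  obtain ⟨C, hC⟩ := Helper80.SG.dom_all K S hS N hd
  refine ⟨C, ?_⟩
  rintro H hH f ⟨P, u, hu, hf⟩ T hT0 hTp hT
  have D : Helper80.SG.Dominant S d H := Helper80.SG.chain_dominant hH.homogeneous hH.divisible
    hH.triangular hH.integral hH.chain
  obtain ⟨T', hcard, h0, hp', h1⟩ := Helper80.SG.conj_card (d := d)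
    (G := Helper80.SG.towMap d H)
    (F := fun v : Fin (N + 1) → K => fun i => MvPolynomial.eval v (f i))
    (Helper80.SG.towMap_smul D) P u hu hf hT0 hTp (fun m n => m < n) hT
  rw [← hcard]
  refine hC H D T' h0 hp' (fun x hx => ?_)
  obtain ⟨m, n, hmn, a, -, ha⟩ := h1 x hx
  exact ⟨m, n, hmn, a, ha⟩

end Pool.Agent.Results.MP_13bc7b_nt.TriangularTower
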